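import Pool.Agent.H55.FFM.TE

/-!
# EXX: the pull back of rational functions
-/

set_option autoImplicit false

open MvPolynomial
open Pool.Agent.H18.HIT

namespace Pool.Agent.H41.FFM

open Pool.Agent.H55.FFM

theorem pf_EXX : T_EXX := by
  intro N k _ G hG
  let g : Po N k →ₐ[k] KN N k :=
    (IsScalarTower.toAlgHom k (Po N k) (KN N k)).comp (aeval G)
  have hg : Function.Injective g :=
    (IsFractionRing.injective (Po N k) (KN N k)).comp hG
  refine ⟨IsFractionRing.liftAlgHom hg, fun q => ?_⟩
  have h1 := IsFractionRing.liftAlgHom_apply (K := KN N k) (g := g) (hg := hg) (x := fr q)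
  rw [h1]
  exact IsFractionRing.lift_algebraMap _ q

end Pool.Agent.H41.FFM
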