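import Pool.Agent.H55.FFM.TP

/-!
# FLG: a basis adapted to a valuation
-/

set_option autoImplicit false

namespace Pool.Agent.H41.FFM

open Pool.Agent.H55.FFM

/-- independent vectors in an increasing sequence of subspaces -/
theorem flag_li {k F : Type} [Field k] [AddCommGroup F] [Module k F] (H : ℕ → Submodule k F) :
    ∀ n : ℕ, (∀ i, i < n → i + 1 ≤ Module.finrank k (H i)) →
    ∃ c : Fin n → F, LinearIndependent k c ∧ ∀ i : Fin n, c i ∈ H i := by
  intro n
  induction n with
  | zero =>
    intro _
    exact ⟨Fin.elim0, linearIndependent_empty_type, fun i => i.elim0⟩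
  | succ n ih =>
    intro h
    obtain ⟨c, hc, hcm⟩ := ih fun i hi => h i (by omega)
    have hfd : FiniteDimensional k (Submodule.span k (Set.range c)) :=
      FiniteDimensional.span_of_finite k (Set.finite_range c)
    have hx : ∃ x ∈ H n, x ∉ Submodule.span k (Set.range c) := by
      by_contra hcon
      push Not at hcon
      have h1 : H n ≤ Submodule.span k (Set.range c) := hcon
      have h2 := Submodule.finrank_mono h1
      rw [finrank_span_eq_card hc, Fintype.card_fin] at h2
      have h3 := h n (by omega)
      omega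
    obtain ⟨x, hxH, hxs⟩ := hx
    refine ⟨Fin.snoc (α := fun _ => F) c x, ?_, ?_⟩
    · rw [linearIndependent_finSnoc]
      exact ⟨hc, hxs⟩
    · intro i
      refine Fin.lastCases ?_ (fun j => ?_) i
      · rw [Fin.snoc_last]
        exact hxH
      · rw [Fin.snoc_castSucc]
        exact hcm j

theorem pf_FLG (hLEV : T_LEV) : T_FLG := by
  intro k F S _ _ _ v hV s M b hb hb0
  obtain ⟨L, hL, hLr⟩ := hLEV k F S v hV
  set U : Submodule k F := Submodule.span k (Set.range b) with hU
  haveI hfd : FiniteDimensional k U := FiniteDimensional.span_of_finite k (Set.finite_range b)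
  have hUM : Module.finrank k U = M := by
    rw [hU, finrank_span_eq_card hb, Fintype.card_fin]
  have hU0 : U ≤ L s 0 := by
    rw [hU, Submodule.span_le]
    rintro x ⟨j, rfl⟩
    exact (hL s 0 (b j)).2 (Or.inr (hb0 j))
  have hdim : ∀ m : ℕ, M ≤ Module.finrank k (U ⊓ L s (m : ℤ) : Submodule k F) + m := by
    intro m
    induction m with
    | zero =>
      rw [Nat.cast_zero, inf_eq_left.2 hU0, hUM]
      omega
    | succ m ih =>
      have h1 := hLr U s (m : ℤ) hfd
      push_cast
      omega
  obtain ⟨c, hc, hcm⟩ := flag_li (fun i => (U ⊓ L s ((M - 1 - i : ℕ) : ℤ) : Submodule k F)) M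
    (by
      intro i hi
      have := hdim (M - 1 - i)
      show i + 1 ≤ Module.finrank k (U ⊓ L s ((M - 1 - i : ℕ) : ℤ) : Submodule k F)
      omega)
  let c' : Fin M → F := fun j => c (Fin.rev j)
  have hc' : LinearIndependent k c' := hc.comp Fin.rev Fin.rev_injective
  have hcU : ∀ j, c' j ∈ Submodule.span k (Set.range b) := fun j => (hcm (Fin.rev j)).1
  have hcL : ∀ j : Fin M, c' j ∈ L s ((j : ℕ) : ℤ) := by
    intro j
    have h1 := (hcm (Fin.rev j)).2
    have h2 : (M - 1 - (Fin.rev j : ℕ) : ℕ) = j := by
      rw [Fin.val_rev]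
      omega
    rw [h2] at h1
    exact h1
  have hex : ∀ j, ∃ p : Fin M → k, ∑ i, p i • b i = c' j := fun j =>
    (Submodule.mem_span_range_iff_exists_fun k).1 (hcU j)
  choose p hp using hex
  refine ⟨Matrix.of fun i j => p j i, ?_, ?_⟩
  · intro h0
    obtain ⟨w, hw0, hw⟩ := Matrix.exists_mulVec_eq_zero_iff.2 h0
    apply hw0
    have h1 : ∑ j, w j • c' j = 0 := by
      calc ∑ j, w j • c' j = ∑ j, w j • ∑ i, p j i • b i := by
            refine Finset.sum_congr rfl fun j _ => ?_
            rw [hp]
        _ = ∑ j, ∑ i, (p j i * w j) • b i := by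
            refine Finset.sum_congr rfl fun j _ => ?_
            rw [Finset.smul_sum]
            refine Finset.sum_congr rfl fun i _ => ?_
            rw [smul_smul, mul_comm]
        _ = ∑ i, ∑ j, (p j i * w j) • b i := Finset.sum_comm
        _ = ∑ i, (Matrix.mulVec (Matrix.of fun i j => p j i) w i) • b i := by
            refine Finset.sum_congr rfl fun i _ => ?_
            rw [← Finset.sum_smul]
            rfl
        _ = 0 := by
            rw [hw]
            simp
    funext j
    exact Fintype.linearIndependent_iff.1 hc' w h1 j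
  · intro j
    have h1 : (∑ i, (Matrix.of fun i j => p j i : Matrix (Fin M) (Fin M) k) i j • b i) = c' j :=
      hp j
    rw [h1]
    refine ⟨hc'.ne_zero j, ?_⟩
    rcases (hL s _ _).1 (hcL j) with h2 | h2
    · exact absurd h2 (hc'.ne_zero j)
    · exact h2

end Pool.Agent.H41.FFM
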