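import Pool.Agent.H55.FFM.TP

/-!
# ITG: `R` is integral over `τ R`
-/

set_option autoImplicit false

namespace Pool.Agent.H41.FFM

open Pool.Agent.H55.FFM

theorem pf_ITG (hPLA : T_PLA) (hPRM : T_PRM) : T_ITG := by
  intro k F _ _ _ _ _ R τ hR hτ hE r hr
  obtain ⟨S, _, v, hP⟩ := hPLA k F R hR
  obtain ⟨σ, hσ⟩ := hPRM k F R S v τ _ hR hP hτ rfl hE
  have hcl : Subring.closure ((R.map τ : Subalgebra k F) : Set F) = (R.map τ).toSubring :=
    Subring.closure_eq (R.map τ).toSubring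
  have key : r ∈ (⨅ V : {V : ValuationSubring F //
      ((R.map τ : Subalgebra k F) : Set F) ⊆ V.toSubring}, V.1.toSubring) := by
    rw [Subring.mem_iInf]
    rintro ⟨O, hO⟩
    by_contra hrO
    have hO' : ∀ x ∈ R.map τ, x ∈ O := fun x hx => hO hx
    have hk : ∀ c : k, algebraMap k F c ∈ O := fun c => hO' _ (Subalgebra.algebraMap_mem _ c)
    obtain ⟨s, hs⟩ := hP.uni O hk ⟨r, hr, hrO⟩
    obtain ⟨l, hlR, hl0, hlv⟩ := hP.neg
    have h1 : τ l ∈ O := hO' _ ⟨l, hlR, rfl⟩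
    have h2 : τ l ≠ 0 := fun h => hl0 (τ.toRingHom.injective (by rw [map_zero]; exact h))
    have h3 := (hs (τ l) h2).1 h1
    rw [hσ s l hl0] at h3
    have h4 := hlv (σ s)
    have h5 : (1 : ℤ) ≤ (deh (τ : F →+* F) : ℤ) := by exact_mod_cast hE
    nlinarith
  rw [iInf_valuationSubring_superset, hcl] at key
  exact key

end Pool.Agent.H41.FFM
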