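import Pool.Agent.H55.FFM.TP

/-!
# PRM: the places at infinity are permuted and totally ramified
-/

set_option autoImplicit false

namespace Pool.Agent.H41.FFM

open Pool.Agent.H55.FFM

theorem pf_PRM (hDGP : T_DGP) (hRIE : T_RIE) (hEXT : T_EXT) (hPBK : T_PBK) (hDEH : T_DEH) :
    T_PRM := by
  intro k F _ _ _ _ _ R S _ v τ E hR hP hτ hE hE1
  classical
  have hV := hP.toVs
  choose φ e he hφ using hEXT k F R S v τ hR hP hτ
  have hinj : Function.Injective φ := by
    intro s' s'' h
    have h1 : ∀ a, a ≠ 0 → e s' * v s' a = e s'' * v s'' a := by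
      intro a ha
      rw [← hφ s' a ha, ← hφ s'' a ha, h]
    have h2 : e s'' ∣ e s' := by
      obtain ⟨a, ha, ha1⟩ := hV.nrm s'
      refine ⟨v s'' a, ?_⟩
      have := h1 a ha
      rw [ha1, mul_one] at this
      exact this
    have h3 : e s' ∣ e s'' := by
      obtain ⟨a, ha, ha1⟩ := hV.nrm s''
      refine ⟨v s' a, ?_⟩
      have := h1 a ha
      rw [ha1, mul_one] at this
      exact this.symm
    have h4 : e s' = e s'' :=
      Int.dvd_antisymm (by linarith [he s']) (by linarith [he s'']) h3 h2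
    refine hV.dst s' s'' fun a ha => ?_
    have h5 := h1 a ha
    rw [h4] at h5
    exact mul_left_cancel₀ (by linarith [he s'']) h5
  have hbij : Function.Bijective φ := Finite.injective_iff_bijective.1 hinj
  set ρ : S ≃ S := Equiv.ofBijective φ hbij with hρ
  have hφρ : ∀ s, φ (ρ.symm s) = s := fun s => ρ.apply_symm_apply s
  have hv : ∀ s a, a ≠ 0 → v s (τ a) = e (ρ.symm s) * v (ρ.symm s) a := by
    intro s a ha
    have := hφ (ρ.symm s) a ha
    rwa [hφρ] at this
  refine ⟨ρ.symm, fun s a ha => ?_⟩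
  rw [hv s a ha]
  congr 1
  obtain ⟨c, hc⟩ := hRIE k F R S v hR hP (ρ.symm s)
  obtain ⟨β, hβR, hβ0, hβv, hβo⟩ := hc (max c 1) (le_max_left _ _)
  have hj : (1 : ℤ) ≤ ((max c 1 : ℕ) : ℤ) := by exact_mod_cast le_max_right c 1
  have hτβ : τ β ≠ 0 := fun h => hβ0 (τ.toRingHom.injective (by rw [map_zero]; exact h))
  have hd1 := hDGP k F R S v hR hP β hβR hβ0
  have hd2 := hDGP k F R S v hR hP (τ β) (hτ β hβR) hτβ
  have hs1 : ∑ t, max 0 (-v t β) = ((max c 1 : ℕ) : ℤ) := by
    rw [Finset.sum_eq_single (ρ.symm s)]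
    · rw [hβv, neg_neg, max_eq_right (by linarith)]
    · intro t _ ht
      exact max_eq_left (by linarith [hβo t ht])
    · intro h
      exact absurd (Finset.mem_univ _) h
  have hs2 : ∑ t, max 0 (-v t (τ β)) = e (ρ.symm s) * ((max c 1 : ℕ) : ℤ) := by
    rw [Finset.sum_eq_single s]
    · rw [hv s β hβ0, hβv, mul_neg, neg_neg, max_eq_right]
      exact mul_nonneg (by linarith [he (ρ.symm s)]) (by linarith)
    · intro t _ ht
      refine max_eq_left ?_
      have h6 : ρ.symm t ≠ ρ.symm s := fun h => ht (ρ.symm.injective h)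
      have h7 := hβo _ h6
      rw [hv t β hβ0]
      have h8 : 0 ≤ e (ρ.symm t) * v (ρ.symm t) β := mul_nonneg (by linarith [he (ρ.symm t)]) h7
      linarith
    · intro h
      exact absurd (Finset.mem_univ _) h
  rw [hs1] at hd1
  rw [hs2] at hd2
  have hp := hPBK k F τ 1 {β}
  rw [Function.iterate_one, Set.image_singleton, pow_one] at hp
  have hq : Module.finrank τ.fieldRange F = E := by
    have h9 := hDEH F (τ : F →+* F)
    rw [hE] at h9
    rw [h9]
    rfl
  rw [hq] at hp
  have h10 : (E : ℤ) * ((max c 1 : ℕ) : ℤ) = e (ρ.symm s) * ((max c 1 : ℕ) : ℤ) := by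
    rw [← hd2, hp, ← hd1]
    push_cast
    ring
  exact (mul_right_cancel₀ (by linarith) h10).symm

end Pool.Agent.H41.FFM
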