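import Pool.Agent.H55.FFM.TD

/-!
# REL: existence of a relation between two functions
-/

set_option autoImplicit false

namespace Pool.Agent.H41.FFM

open Pool.Agent.H55.FFM
open scoped IntermediateField.algebraAdjoinAdjoin

theorem pf_REL : T_REL := by
  intro k F _ _ _ a b ha hb
  have h1 : IsAlgebraic (Algebra.adjoin k {a}) b :=
    (IsFractionRing.isAlgebraic_iff (Algebra.adjoin k {a}) (IntermediateField.adjoin k {a}) F).2 hb
  obtain ⟨p, hp, hpb⟩ := h1
  let f : Polynomial k →ₐ[k] F := Polynomial.aeval a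
  have hf : ∀ x : Polynomial k, f x ∈ Algebra.adjoin k {a} := by
    intro x
    exact Polynomial.aeval_mem_adjoin_singleton k a
  let g : Polynomial k →ₐ[k] Algebra.adjoin k {a} := f.codRestrict _ hf
  have hg : Function.Surjective g := by
    rintro ⟨y, hy⟩
    have hy2 := hy
    rw [Algebra.adjoin_singleton_eq_range_aeval] at hy2
    obtain ⟨x, hx⟩ := hy2
    exact ⟨x, Subtype.ext hx⟩
  obtain ⟨Q, hQ⟩ := Polynomial.map_surjective g.toRingHom hg p
  have hQ0 : Q ≠ 0 := by
    rintro rfl
    apply hp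
    rw [← hQ, Polynomial.map_zero]
  have hev : evX a b Q = 0 := by
    have h2 : evX a b Q = Polynomial.aeval b p := by
      rw [← hQ, Polynomial.aeval_def, Polynomial.eval₂_map]
      rfl
    rw [h2, hpb]
  let φ : Polynomial (Polynomial k) →+* F := Polynomial.eval₂RingHom f.toRingHom b
  have hprime : (RingHom.ker φ).IsPrime := RingHom.ker_isPrime φ
  have hne : RingHom.ker φ ≠ ⊥ := by
    intro h0
    apply hQ0
    have h3 : Q ∈ RingHom.ker φ := hev
    rw [h0] at h3
    exact h3
  obtain ⟨x, hx, hxp⟩ := Ideal.IsPrime.exists_mem_prime_of_ne_bot hprime hne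
  exact ⟨x, hxp.irreducible, hx⟩

end Pool.Agent.H41.FFM
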